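import Mathlib
import Pool.Agent.H556.PT.Core
import Pool.Agent.H556.FX.Seq

/-!
# Common divisors of `2 ^ n + k`, `k` small, and short sums of `S`-units
-/

set_option autoImplicit false

namespace Pool.Agent.H556.PT

open Filter Topology Pool.Agent.TH932.Germs Pool.Agent.TH551.SU Pool.Agent.Y724.Vj
open Pool.Agent.H556.FG Pool.Agent.H556.FX Pool.Agent.H556.GD

/-- sequences of exponents and shifts -/
structure Fam {s : ℕ} (b : Fin s → ℕ) (E k : ℕ → ℕ) : Prop where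
  hb : ∀ v, (b v).Prime
  hbi : Function.Injective b
  two : ∃ v, b v = 2
  hE : ∀ n, n + 1 ≤ E n
  odd : ∀ n, Odd (k n)
  small : ∀ n, (k n : ℝ) ≤ ((2 : ℝ) ^ (E n)) ^ (1 / ((n : ℝ) + 1))
  cop : ∀ n v, ¬ b v ∣ 2 ^ E n + k n

/-- the numbers `2 ^ n + k` -/
def Q (E k : ℕ → ℕ) (n : ℕ) : ℕ := 2 ^ E n + k n

/-- their logarithms -/
noncomputable def LQ (E k : ℕ → ℕ) (n : ℕ) : ℝ := Real.log (Q E k n)

namespace Fam

variable {s : ℕ} {b : Fin s → ℕ} {E k : ℕ → ℕ}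

lemma Qpos (n : ℕ) : 0 < Q E k n := by unfold Q; positivity

lemma expL (n : ℕ) : Real.exp (LQ E k n) = Q E k n :=
  Real.exp_log (by exact_mod_cast Qpos n)

lemma kle (h : Fam b E k) (n : ℕ) : k n ≤ 2 ^ E n := by
  have h1 := h.small n
  have h2 : (1 : ℝ) ≤ 2 ^ E n := one_le_pow₀ (by norm_num)
  have h3 : ((2 : ℝ) ^ (E n)) ^ (1 / ((n : ℝ) + 1)) ≤ ((2 : ℝ) ^ (E n)) ^ (1 : ℝ) := by
    apply Real.rpow_le_rpow_of_exponent_le h2
    rw [div_le_one (by positivity)]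
    have : (0 : ℝ) ≤ n := Nat.cast_nonneg n
    linarith
  rw [Real.rpow_one] at h3
  exact_mod_cast h1.trans h3

lemma lowQ (n : ℕ) : (2 : ℝ) ^ E n ≤ Q E k n := by
  unfold Q
  push_cast
  linarith [(Nat.cast_nonneg (k n) : (0 : ℝ) ≤ k n)]

lemma upQ (h : Fam b E k) (n : ℕ) : (Q E k n : ℝ) ≤ 2 * 2 ^ E n := by
  have h1 : (k n : ℝ) ≤ 2 ^ E n := by exact_mod_cast h.kle n
  unfold Q
  push_cast
  linarith

lemma L_nonneg' (n : ℕ) : 0 ≤ LQ E k n :=
  Real.log_nonneg (by exact_mod_cast (Qpos n : 0 < Q E k n))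

lemma Elog (n : ℕ) : E n * Real.log 2 ≤ LQ E k n := by
  unfold LQ
  rw [← Real.log_pow]
  exact Real.log_le_log (by positivity) (lowQ n)

lemma tendsto (h : Fam b E k) : Tendsto (LQ E k) atTop atTop := by
  have h1 : Tendsto (fun n : ℕ => (n : ℝ) * Real.log 2) atTop atTop :=
    tendsto_natCast_atTop_atTop.atTop_mul_const (Real.log_pos (by norm_num))
  refine tendsto_atTop_mono (fun n => ?_) h1
  refine le_trans ?_ (Elog n)
  apply mul_le_mul_of_nonneg_right _ (Real.log_nonneg (by norm_num))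
  exact_mod_cast (Nat.le_succ n).trans (h.hE n)

lemma Negl_of {c : ℕ → ℤ} (h : Fam b E k)
    (hc : ∀ n, |(c n : ℝ)| ≤ ((2 : ℝ) ^ (E n)) ^ (1 / ((n : ℝ) + 1))) : Negl (LQ E k) c := by
  intro ε hε
  obtain ⟨N', hN'⟩ := exists_nat_gt (1 / ε)
  filter_upwards [ev_of_atTop (eventually_ge_atTop N')] with n hn
  have h1 := hc n
  refine h1.trans ?_
  calc ((2 : ℝ) ^ (E n)) ^ (1 / ((n : ℝ) + 1)) ≤ (Real.exp (LQ E k n)) ^ (1 / ((n : ℝ) + 1)) :=
        Real.rpow_le_rpow (by positivity) (by rw [expL]; exact lowQ n) (by positivity)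
    _ = Real.exp (1 / ((n : ℝ) + 1) * LQ E k n) := by rw [← Real.exp_mul, mul_comm]
    _ ≤ Real.exp (ε * LQ E k n) := by
        apply Real.exp_le_exp.2
        apply mul_le_mul_of_nonneg_right _ (L_nonneg' n)
        have hN'' : (N' : ℝ) ≤ n := by exact_mod_cast hn
        rw [div_le_iff₀ (by positivity)]
        rw [div_lt_iff₀ hε] at hN'
        nlinarith

/-- the `S`-unit `2 ^ (-n)` -/
noncomputable def W (E : ℕ → ℕ) (n : ℕ) : ℚ := ((2 : ℚ) ^ E n)⁻¹

lemma su_two (h : Fam b E k) : IsSU b (2 : ℚ) := by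
  have := isSU_int b h.hb h.hbi (x := 2) (by norm_num) (fun p hp hd => by
    have h1 : p ∣ 2 := by simpa using hd
    obtain ⟨v, hv⟩ := h.two
    exact ⟨v, hv.trans ((Nat.prime_dvd_prime_iff_eq hp Nat.prime_two).1 h1).symm⟩)
  exact_mod_cast this

lemma Wsu (h : Fam b E k) (n : ℕ) : IsSU b (W E n) := isSU_inv (isSU_pow h.hb h.su_two _)

lemma WB (h : Fam b E k) : Bd (LQ E k) (gm (W E)) := by
  refine ⟨fun _ => 1, fun n => 2 ^ E n, 1, ?_, ?_, ?_, ?_⟩
  · refine Eventually.of_forall fun n => ?_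
    push_cast
    rw [abs_one, one_mul]
    exact Real.one_le_exp (L_nonneg' n)
  · refine Eventually.of_forall fun n => ?_
    push_cast
    rw [one_mul, abs_of_pos (by positivity), expL]
    exact lowQ n
  · exact Eventually.of_forall fun n => by positivity
  · congr 1
    funext n
    unfold W
    push_cast
    rw [one_div]

lemma WK (h : Fam b E k) : gm (W E) ∉ KK (LQ E k) h.tendsto := by
  intro hm
  rw [mem_KK_iff] at hm
  have h1 := hm.2 (1 / 4) (by norm_num)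
  obtain ⟨n, hn0, hn2⟩ := (h1.and (ev_of_atTop (h.tendsto.eventually_ge_atTop 4))).exists
  have hn1 : |(((W E n).den : ℤ) : ℝ)| ≤ Real.exp (1 / 4 * LQ E k n) := hn0
  have h3 : (W E n).den = 2 ^ E n := by
    unfold W
    rw [show ((2 : ℚ) ^ E n)⁻¹ = (((2 ^ E n : ℕ) : ℚ))⁻¹ by push_cast; rfl,
      Rat.inv_natCast_den_of_pos (by positivity)]
  rw [h3] at hn1
  push_cast at hn1
  rw [abs_of_pos (by positivity)] at hn1
  have h4 := h.upQ n
  rw [← expL] at h4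
  have h5 : Real.exp (LQ E k n) ≤ 2 * Real.exp (1 / 4 * LQ E k n) := by linarith
  have h6 : Real.exp (LQ E k n) = Real.exp (1 / 4 * LQ E k n) * Real.exp (3 / 4 * LQ E k n) := by
    rw [← Real.exp_add]; ring_nf
  have h7 := Real.add_one_le_exp (3 / 4 * LQ E k n)
  have h8 := Real.exp_pos (1 / 4 * LQ E k n)
  nlinarith

/-- the fraction `k / 2 ^ n` -/
noncomputable def Z (E k : ℕ → ℕ) (n : ℕ) : ℚ := ((k n : ℤ) : ℚ) * W E n

lemma Zeq (n : ℕ) : Z E k n = ((k n : ℤ) : ℚ) / ((2 ^ E n : ℤ) : ℚ) := by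
  unfold Z W
  push_cast
  rw [div_eq_mul_inv]

lemma cop2 (h : Fam b E k) (n : ℕ) : Nat.Coprime (k n) (2 ^ E n) :=
  Nat.Coprime.pow_right _ (Nat.coprime_two_right.2 (h.odd n))

lemma Znum (h : Fam b E k) (n : ℕ) : (Z E k n).num = k n := by
  rw [Zeq]
  exact Rat.num_div_eq_of_coprime (by positivity) (by simpa using h.cop2 n)

lemma Zden (h : Fam b E k) (n : ℕ) : ((Z E k n).den : ℤ) = 2 ^ E n := by
  rw [Zeq]
  exact Rat.den_div_eq_of_coprime (by positivity) (by simpa using h.cop2 n)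

lemma Zpos (h : Fam b E k) (n : ℕ) : 0 < Z E k n := by
  rw [Zeq]
  have := (h.odd n).pos
  positivity

lemma QZ (n : ℕ) : (1 + Z E k n) * 2 ^ E n = Q E k n := by
  rw [Zeq]
  unfold Q
  push_cast
  field_simp

lemma Qodd (h : Fam b E k) (n : ℕ) : Nat.Coprime (Q E k n) 2 := by
  obtain ⟨v, hv⟩ := h.two
  have h1 := h.cop n v
  rw [hv] at h1
  exact ((Nat.prime_two.coprime_iff_not_dvd).2 h1).symm

lemma QF (h : Fam b E k) (n : ℕ) : (Q E k n : ℤ) ∣ (1 + Z E k n).num := by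
  have h1 : (1 + Z E k n).num * 2 ^ E n = (Q E k n : ℤ) * (1 + Z E k n).den := by
    have h2 : (1 + Z E k n) * (1 + Z E k n).den = (1 + Z E k n).num := Rat.mul_den_eq_num _
    have h3 : (((1 + Z E k n).num * 2 ^ E n : ℤ) : ℚ) =
        (((Q E k n : ℤ) * (1 + Z E k n).den : ℤ) : ℚ) := by
      push_cast
      rw [← h2, ← QZ]
      ring
    exact_mod_cast h3
  have h4 : IsCoprime (Q E k n : ℤ) (2 ^ E n) := by
    apply IsCoprime.pow_right
    exact_mod_cast Nat.isCoprime_iff_coprime.2 (h.Qodd n)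
  exact h4.dvd_of_dvd_mul_right ⟨_, h1⟩

lemma HtZ (h : Fam b E k) (n : ℕ) : Ht (Z E k n) ≤ Real.exp (LQ E k n) := by
  unfold Ht
  have h1 : ((Z E k n).den : ℝ) = 2 ^ E n := by exact_mod_cast h.Zden n
  rw [h.Znum, h1, expL]
  apply max_le _ (lowQ n)
  rw [Int.cast_natCast, Nat.abs_cast]
  refine le_trans ?_ (lowQ n)
  exact_mod_cast h.kle n

end Fam

end Pool.Agent.H556.PT
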