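import Mathlib
import Pool.Agent.H556.PT.Seq

/-!
# Common divisors of `2 ^ n + k`, `k` small, and short sums of `S`-units: the theorems
-/

set_option autoImplicit false

namespace Pool.Agent.H556.PT

open Filter Topology Pool.Agent.TH932.Germs Pool.Agent.TH551.SU Pool.Agent.Y724.Vj
open Pool.Agent.H556.FG Pool.Agent.H556.FX Pool.Agent.H556.GD

lemma root_of {k m l : ℕ} (hk : Odd k) (hl : l ≠ 0) {y : ℚ} (h : y ^ l = (k : ℚ) / 2 ^ m) :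
    l ∣ m ∧ ∃ a : ℕ, a ^ l = k := by
  have hc : Nat.Coprime k (2 ^ m) := Nat.Coprime.pow_right _ (Nat.coprime_two_right.2 hk)
  have h0 : y ^ l = ((k : ℤ) : ℚ) / ((2 ^ m : ℤ) : ℚ) := by rw [h]; push_cast; rfl
  have h1 : (y ^ l).num = k := by
    rw [h0]
    exact Rat.num_div_eq_of_coprime (by positivity) (by simpa using hc)
  have h2 : ((y ^ l).den : ℤ) = 2 ^ m := by
    rw [h0]
    exact Rat.den_div_eq_of_coprime (by positivity) (by simpa using hc)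
  rw [Rat.num_pow] at h1
  rw [Rat.den_pow] at h2
  constructor
  · apply dvd_of_pow_eq (q := (y.den : ℚ)) hl
    exact_mod_cast h2
  · refine ⟨y.num.natAbs, ?_⟩
    have h3 := congrArg Int.natAbs h1
    rw [Int.natAbs_pow, Int.natAbs_natCast] at h3
    exact h3

/-- the data of a counterexample sequence -/
structure Data (S : Finset ℕ) (r : ℕ) (K : ℝ) (E k : ℕ → ℕ) (c : ℕ → Fin r → ℤ)
    (u : ℕ → Fin r → ℚ) (D : ℕ → ℕ) : Prop where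
  hE : ∀ n, n + 1 ≤ E n
  odd : ∀ n, Odd (k n)
  small : ∀ n, (k n : ℝ) ≤ ((2 : ℝ) ^ (E n)) ^ (1 / ((n : ℝ) + 1))
  cop : ∀ n, ∀ l ∈ S, l.Prime → ¬ l ∣ 2 ^ E n + k n
  hc : ∀ n i, |(c n i : ℝ)| ≤ ((2 : ℝ) ^ (E n)) ^ (1 / ((n : ℝ) + 1))
  hu0 : ∀ n i, u n i ≠ 0
  hu : ∀ n i, ∀ l : ℕ, l.Prime → (l ∣ (u n i).num.natAbs ∨ l ∣ (u n i).den) → l ∈ S
  huB : ∀ n i, |((u n i).num : ℝ)| ≤ ((2 : ℝ) ^ (E n)) ^ K ∧
    ((u n i).den : ℝ) ≤ ((2 : ℝ) ^ (E n)) ^ K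
  hNF : ∀ n, ¬ ((2 ^ E n + k n : ℕ) : ℤ) ∣ (∑ i, (c n i : ℚ) * u n i).num
  hDF : ∀ n, D n ∣ 2 ^ E n + k n
  hDG : ∀ n, (D n : ℤ) ∣ (∑ i, (c n i : ℚ) * u n i).num

/-- the primes of `S` and two -/
def S2 (S : Finset ℕ) : Finset ℕ := S.filter Nat.Prime ∪ {2}

/-- enumeration of the primes -/
noncomputable def bb (S : Finset ℕ) : Fin (S2 S).card → ℕ := fun v => ((S2 S).equivFin.symm v : ℕ)

lemma bb_mem (S : Finset ℕ) (v : Fin (S2 S).card) : bb S v ∈ S2 S := ((S2 S).equivFin.symm v).2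

lemma bb_prime (S : Finset ℕ) (v : Fin (S2 S).card) : (bb S v).Prime := by
  rcases Finset.mem_union.1 (bb_mem S v) with h2 | h2
  · exact (Finset.mem_filter.1 h2).2
  · rw [Finset.mem_singleton.1 h2]; exact Nat.prime_two

lemma bb_inj (S : Finset ℕ) : Function.Injective (bb S) := fun _ _ h =>
  (S2 S).equivFin.symm.injective (Subtype.ext h)

lemma bb_surj (S : Finset ℕ) {p : ℕ} (hp : p ∈ S2 S) : ∃ v, bb S v = p :=
  ⟨(S2 S).equivFin ⟨p, hp⟩, by rw [bb]; simp⟩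

namespace Data

variable {S : Finset ℕ} {r : ℕ} {K : ℝ} {E k : ℕ → ℕ} {c : ℕ → Fin r → ℤ}
  {u : ℕ → Fin r → ℚ} {D : ℕ → ℕ}

lemma fam (h : Data S r K E k c u D) : Fam (bb S) E k where
  hb := bb_prime S
  hbi := bb_inj S
  two := bb_surj S (Finset.mem_union_right _ (Finset.mem_singleton_self 2))
  hE := h.hE
  odd := h.odd
  small := h.small
  cop := by
    intro n v hv
    rcases Finset.mem_union.1 (bb_mem S v) with h2 | h2
    · exact h.cop n _ (Finset.mem_filter.1 h2).1 (bb_prime S v) hv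
    · rw [Finset.mem_singleton.1 h2] at hv
      have h3 : 2 ∣ 2 ^ E n := dvd_pow_self _ (by have := h.hE n; omega)
      have h4 : 2 ∣ k n := (Nat.dvd_add_right h3).1 hv
      exact (Nat.not_even_iff_odd.2 (h.odd n)) (even_iff_two_dvd.2 h4)

lemma usu (h : Data S r K E k c u D) (n : ℕ) (i : Fin r) : IsSU (bb S) (u n i) := by
  apply isSU_of (bb S) (bb_prime S) _ (h.hu0 n i) _ (bb_inj S)
  intro p hp hd
  exact bb_surj S (Finset.mem_union_left _ (Finset.mem_filter.2 ⟨h.hu n i p hp hd, hp⟩))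

lemma uB (h : Data S r K E k c u D) (i : Fin r) : Bd (LQ E k) (gm fun n => u n i) := by
  have key : ∀ n, ((2 : ℝ) ^ (E n)) ^ K ≤ Real.exp (|K| * LQ E k n) := by
    intro n
    calc ((2 : ℝ) ^ (E n)) ^ K ≤ ((2 : ℝ) ^ (E n)) ^ |K| :=
          Real.rpow_le_rpow_of_exponent_le (one_le_pow₀ (by norm_num)) (le_abs_self K)
      _ ≤ (Real.exp (LQ E k n)) ^ |K| :=
          Real.rpow_le_rpow (by positivity) (by rw [Fam.expL]; exact Fam.lowQ n) (abs_nonneg K)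
      _ = Real.exp (|K| * LQ E k n) := by rw [← Real.exp_mul, mul_comm]
  refine ⟨fun n => (u n i).num, fun n => ((u n i).den : ℤ), |K|, ?_, ?_, ?_, ?_⟩
  · exact Eventually.of_forall fun n => (h.huB n i).1.trans (key n)
  · refine Eventually.of_forall fun n => ?_
    rw [Int.cast_natCast, abs_of_nonneg (Nat.cast_nonneg _)]
    exact (h.huB n i).2.trans (key n)
  · refine Eventually.of_forall fun n => ?_
    simp only []
    exact_mod_cast (u n i).den_ne_zero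
  · congr 1
    funext n
    exact_mod_cast (Rat.num_div_den (u n i)).symm

lemma one_Z (h : Data S r K E k c u D) (n : ℕ) : 1 + Fam.Z E k n ≠ 0 := by
  have := h.fam.Zpos n
  positivity

lemma copv (h : Data S r K E k c u D) (n : ℕ) (v : Fin (S2 S).card) :
    Nat.Coprime (Q E k n) (bb S v) := by
  rw [Nat.coprime_comm, (bb_prime S v).coprime_iff_not_dvd]
  exact h.fam.cop n v

lemma kN (h : Data S r K E k c u D) : Negl (LQ E k) (fun n => (k n : ℤ)) :=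
  h.fam.Negl_of fun n => by rw [Int.cast_natCast, Nat.abs_cast]; exact h.small n

lemma hr (h : Data S r K E k c u D) : 1 ≤ r := by
  by_contra h0
  have h1 : r = 0 := by omega
  subst h1
  apply h.hNF 0
  simp

/-- the first theorem for sequences -/
theorem fin1 (h : Data S r K E k c u D) {δ : ℝ} (hδ : 0 < δ)
    (hD : ∀ n, ((2 ^ E n + k n : ℕ) : ℝ) ^ (1 - 1 / (r : ℝ) + δ) ≤ D n) : False := by
  have key := coreG2 (bb S) (bb_prime S) (bb_inj S) h.fam.tendsto (fun n => (k n : ℤ))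
    (fun n => by exact_mod_cast (h.odd n).pos.ne') h.kN (Fam.W E) (fun n => h.fam.Wsu n)
    h.fam.WB h.fam.WK (Fam.Z E k) (fun _ => rfl) (Q E k) (fun n => (Fam.Qpos n).ne')
    h.fam.QF h.one_Z (fun n => (Fam.expL n).ge) h.copv (fun i n => c n i)
    (fun i n => u n i) (fun i n => h.usu n i) h.uB (fun i => h.fam.Negl_of fun n => h.hc n i)
    D h.hDF h.hDG h.hNF (ε := δ / 2) (by positivity)
  have hr' : (1 : ℝ) ≤ r := by exact_mod_cast h.hr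
  have hrR : (0 : ℝ) ≤ 1 - 1 / (r : ℝ) := by
    rw [sub_nonneg, div_le_one (by linarith)]
    exact hr'
  obtain ⟨n, hn, hn2⟩ := (key.and (ev_of_atTop (h.fam.tendsto.eventually_ge_atTop 1))).exists
  have h1 : (D n : ℝ) ≤ Real.exp (δ / 2 * LQ E k n) *
      Real.exp (LQ E k n) ^ (1 - 1 / (r : ℝ)) :=
    hn.trans (mul_le_mul_of_nonneg_left (Real.rpow_le_rpow
      (by have := Ht_one (Fam.Z E k n); linarith) (h.fam.HtZ n) hrR) (Real.exp_pos _).le)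
  have h2 := hD n
  have h3 : ((2 ^ E n + k n : ℕ) : ℝ) = Real.exp (LQ E k n) := (Fam.expL n).symm
  rw [h3] at h2
  have h4 := h2.trans h1
  rw [← Real.exp_mul, ← Real.exp_mul, ← Real.exp_add, Real.exp_le_exp] at h4
  nlinarith

/-- the second theorem for sequences -/
theorem fin2 (h : Data S r K E k c u D) {δ : ℝ} (hδ : 0 < δ)
    (hl : ∀ n, ∀ l : ℕ, l.Prime → l ≠ 2 → l ≤ n + 1 → l ∣ E n → ∀ m : ℕ, m ^ l ≠ k n)
    (h4 : ∀ n, E n % 4 = 2 → ∀ m : ℕ, m ^ 4 ≠ k n)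
    (hD : ∀ n, ((2 ^ E n + k n : ℕ) : ℝ) ^ δ ≤ D n) : False := by
  have hZq : ∀ n, Fam.Z E k n = (k n : ℚ) / 2 ^ E n := fun n => by
    rw [Fam.Zeq]; push_cast; rfl
  refine core2 (bb S) (bb_prime S) (bb_inj S) h.fam.tendsto (fun n => (k n : ℤ))
    (fun n => by exact_mod_cast (h.odd n).pos.ne') h.kN (Fam.W E) (fun n => h.fam.Wsu n)
    h.fam.WB h.fam.WK (Fam.Z E k) (fun _ => rfl) ?_ ?_ (Q E k) (fun n => (Fam.Qpos n).ne')
    h.fam.QF h.one_Z (fun n => (Fam.expL n).ge) h.copv (fun i n => c n i)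
    (fun i n => u n i) (fun i n => h.usu n i) h.uB (fun i => h.fam.Negl_of fun n => h.hc n i)
    D h.hDF h.hDG h.hNF (δ := δ) (by positivity) (fun n => ?_)
  · intro w l hlp hw
    obtain ⟨ω, rfl⟩ := gm_surj w
    rw [gm_pow, gm_neg, gm_eq] at hw
    obtain ⟨n, hn, hn2⟩ := (hw.and (ev_of_atTop (eventually_ge_atTop l))).exists
    have hpos := h.fam.Zpos n
    rcases hlp.eq_two_or_odd' with h2 | h2
    · subst h2
      rw [hn] at hpos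
      nlinarith [sq_nonneg (ω n)]
    · have h5 : (-(ω n)) ^ l = (k n : ℚ) / 2 ^ E n := by
        rw [h2.neg_pow, ← hZq, hn]
      obtain ⟨h6, a, h7⟩ := root_of (h.odd n) hlp.ne_zero h5
      refine hl n l hlp ?_ (by omega) h6 a h7
      rintro rfl
      exact absurd h2 (by decide)
  · intro w hw
    obtain ⟨ω, rfl⟩ := gm_surj w
    have h3 : gm (fun _ => (4 : ℚ)) = (4 : GG) := rfl
    rw [← h3, gm_mul, gm_pow, gm_eq] at hw
    obtain ⟨n, hn, hn2⟩ := (hw.and (ev_of_atTop (eventually_ge_atTop 1))).exists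
    have hE2 : 2 ≤ E n := by have := h.hE n; omega
    have h5 : (ω n) ^ 4 = (k n : ℚ) / 2 ^ (E n - 2) := by
      rw [← hn, hZq]
      have h6 : (2 : ℚ) ^ E n = 2 ^ (E n - 2) * 4 := by
        rw [show (4 : ℚ) = 2 ^ 2 by norm_num, ← pow_add, Nat.sub_add_cancel hE2]
      rw [h6]
      field_simp
    obtain ⟨h6, a, h7⟩ := root_of (h.odd n) (by norm_num) h5
    exact h4 n (by omega) a h7
  · have h2 := hD n
    have h3 : ((2 ^ E n + k n : ℕ) : ℝ) = Real.exp (LQ E k n) := (Fam.expL n).symm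
    rw [h3, ← Real.exp_mul, mul_comm] at h2
    exact h2

end Data

/-- all `n` and `k` -/
theorem all2 (S : Finset ℕ) (r : ℕ) (K δ : ℝ) (hδ : 0 < δ) :
    ∃ η : ℝ, 0 < η ∧ ∃ B : ℕ, ∀ n ≥ B, ∀ k : ℕ, Odd k → (k : ℝ) ≤ ((2 : ℝ) ^ n) ^ η →
      (∀ l ∈ S, l.Prime → ¬ l ∣ 2 ^ n + k) →
      ∀ (c : Fin r → ℤ) (u : Fin r → ℚ), (∀ i, |(c i : ℝ)| ≤ ((2 : ℝ) ^ n) ^ η) →
      (∀ i, u i ≠ 0) →
      (∀ i, ∀ l : ℕ, l.Prime → (l ∣ (u i).num.natAbs ∨ l ∣ (u i).den) → l ∈ S) →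
      (∀ i, |((u i).num : ℝ)| ≤ ((2 : ℝ) ^ n) ^ K ∧ ((u i).den : ℝ) ≤ ((2 : ℝ) ^ n) ^ K) →
      ¬ ((2 ^ n + k : ℕ) : ℤ) ∣ (∑ i, (c i : ℚ) * u i).num →
      ∀ d : ℕ, d ∣ 2 ^ n + k → (d : ℤ) ∣ (∑ i, (c i : ℚ) * u i).num →
      (d : ℝ) < ((2 ^ n + k : ℕ) : ℝ) ^ (1 - 1 / (r : ℝ) + δ) := by
  classical
  by_contra hcon
  push Not at hcon
  choose E hE k hk hks hcop c u hc hu0 hu huB hNF D hDF hDG hD using
    fun n : ℕ => hcon (1 / ((n : ℝ) + 1)) (by positivity) (n + 1)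
  exact Data.fin1 (K := K) ⟨hE, hk, hks, hcop, hc, hu0, hu, huB, hNF, hDF, hDG⟩ hδ hD

/-- the irreducible case -/
theorem rough2 (S : Finset ℕ) (r : ℕ) (K δ : ℝ) (hδ : 0 < δ) :
    ∃ η : ℝ, 0 < η ∧ ∃ B : ℕ, ∀ n ≥ B, ∀ k : ℕ, Odd k → (k : ℝ) ≤ ((2 : ℝ) ^ n) ^ η →
      (∀ l ∈ S, l.Prime → ¬ l ∣ 2 ^ n + k) →
      (∀ l : ℕ, l.Prime → l ≠ 2 → l ≤ B → l ∣ n → ∀ m : ℕ, m ^ l ≠ k) →
      (n % 4 = 2 → ∀ m : ℕ, m ^ 4 ≠ k) →
      ∀ (c : Fin r → ℤ) (u : Fin r → ℚ), (∀ i, |(c i : ℝ)| ≤ ((2 : ℝ) ^ n) ^ η) →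
      (∀ i, u i ≠ 0) →
      (∀ i, ∀ l : ℕ, l.Prime → (l ∣ (u i).num.natAbs ∨ l ∣ (u i).den) → l ∈ S) →
      (∀ i, |((u i).num : ℝ)| ≤ ((2 : ℝ) ^ n) ^ K ∧ ((u i).den : ℝ) ≤ ((2 : ℝ) ^ n) ^ K) →
      ¬ ((2 ^ n + k : ℕ) : ℤ) ∣ (∑ i, (c i : ℚ) * u i).num →
      ∀ d : ℕ, d ∣ 2 ^ n + k → (d : ℤ) ∣ (∑ i, (c i : ℚ) * u i).num →
      (d : ℝ) < ((2 ^ n + k : ℕ) : ℝ) ^ δ := by
  classical
  by_contra hcon
  push Not at hcon
  choose E hE k hk hks hcop hl h4 c u hc hu0 hu huB hNF D hDF hDG hD using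
    fun n : ℕ => hcon (1 / ((n : ℝ) + 1)) (by positivity) (n + 1)
  exact Data.fin2 (K := K) ⟨hE, hk, hks, hcop, hc, hu0, hu, huB, hNF, hDF, hDG⟩ hδ hl h4 hD

end Pool.Agent.H556.PT
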