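import Mathlib
import Pool.Agent.H556.PT.Main

/-!
# Binary digits of the multiples of the divisors of `2 ^ n + k`, `k` small
-/

set_option autoImplicit false

namespace Pool.Agent.H556.PT

open Filter Topology

/-- a number in terms of its digit changes -/
lemma changes_eq (m N : ℕ) : (m : ℤ) = -((m % 2 : ℕ) : ℤ) + ∑ j ∈ Finset.range N,
    (((m / 2 ^ j % 2 : ℕ) : ℤ) - ((m / 2 ^ (j + 1) % 2 : ℕ) : ℤ)) * 2 ^ (j + 1) +
      (((m / 2 ^ N : ℕ) : ℤ) + ((m / 2 ^ N % 2 : ℕ) : ℤ)) * 2 ^ N := by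
  induction N with
  | zero => simp
  | succ N ih =>
    rw [Finset.sum_range_succ]
    conv_lhs => rw [ih]
    have h1 : ((m / 2 ^ N : ℕ) : ℤ) = 2 * ((m / 2 ^ (N + 1) : ℕ) : ℤ) +
        ((m / 2 ^ N % 2 : ℕ) : ℤ) := by
      have h2 : m / 2 ^ (N + 1) = m / 2 ^ N / 2 := by rw [pow_succ, Nat.div_div_eq_div_mul]
      rw [h2]
      have h3 := Nat.div_add_mod (m / 2 ^ N) 2
      exact_mod_cast h3.symm
    have h4 : (2 : ℤ) ^ (N + 1) = 2 ^ N * 2 := pow_succ _ _
    rw [h4]
    linear_combination (2 ^ N : ℤ) * h1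

/-- sums with few terms as families -/
lemma pack (p : ℕ) (c : ℕ → ℤ) (hc : ∀ j, |c j| ≤ 1) (J : Finset ℕ) (hJ : ∀ j ∈ J, j ≤ p) :
    ∀ r : ℕ, J.card ≤ r → ∃ (c' : Fin r → ℤ) (e : Fin r → ℕ), (∀ i, |c' i| ≤ 1) ∧
      (∀ i, e i ≤ p) ∧ ∑ j ∈ J, c j * 2 ^ j = ∑ i, c' i * 2 ^ (e i) := by
  classical
  induction J using Finset.induction_on with
  | empty =>
    intro r _
    exact ⟨fun _ => 0, fun _ => 0, by simp, by simp, by simp⟩
  | insert j J hj ih =>
    intro r hr
    rw [Finset.card_insert_of_notMem hj] at hr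
    obtain ⟨r', rfl⟩ : ∃ r', r = r' + 1 := ⟨r - 1, by omega⟩
    obtain ⟨c', e, h1, h2, h3⟩ := ih (fun j hj => hJ j (Finset.mem_insert_of_mem hj)) r' (by omega)
    refine ⟨Fin.cons (c j) c', Fin.cons j e, ?_, ?_, ?_⟩
    · intro i
      induction i using Fin.cases with
      | zero => exact hc j
      | succ i => exact h1 i
    · intro i
      induction i using Fin.cases with
      | zero => exact hJ j (Finset.mem_insert_self _ _)
      | succ i => exact h2 i
    · rw [Finset.sum_insert hj, Fin.sum_univ_succ, h3]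
      simp

/-- **digit changes of multiples of divisors of `2 ^ n + k`** -/
theorem changes2 (r : ℕ) (δ : ℝ) (hδ : 0 < δ) :
    ∃ η : ℝ, 0 < η ∧ ∃ B : ℕ, ∀ n ≥ B, ∀ k : ℕ, Odd k → (k : ℝ) ≤ ((2 : ℝ) ^ n) ^ η →
      (∀ l : ℕ, l.Prime → l ≠ 2 → l ≤ B → l ∣ n → ∀ m : ℕ, m ^ l ≠ k) →
      (n % 4 = 2 → ∀ m : ℕ, m ^ 4 ≠ k) →
      ∀ d m : ℕ, d ∣ 2 ^ n + k → ((2 ^ n + k : ℕ) : ℝ) ^ δ ≤ d → d ∣ m → 0 < m → m < 2 ^ n + k →
      r < ((Finset.range (n + 1)).filter fun i => m / 2 ^ i % 2 ≠ m / 2 ^ (i + 1) % 2).card := by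
  classical
  obtain ⟨η0, hη0, B, h⟩ := rough2 {2} (r + 1) 2 δ hδ
  set η : ℝ := min η0 1 with hη
  have hη1 : 0 < η := lt_min hη0 one_pos
  refine ⟨η, hη1, B + 1, fun n hn k hk hks hl h4 d m hdM hd hdm hm0 hmM => ?_⟩
  by_contra hcon
  push Not at hcon
  have h2n : (1 : ℝ) ≤ (2 : ℝ) ^ n := one_le_pow₀ (by norm_num)
  have hks0 : (k : ℝ) ≤ ((2 : ℝ) ^ n) ^ η0 :=
    hks.trans (Real.rpow_le_rpow_of_exponent_le h2n (min_le_left _ _))
  have hks1 : k ≤ 2 ^ n := by
    have h1 := hks.trans (Real.rpow_le_rpow_of_exponent_le h2n (min_le_right _ _))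
    rw [Real.rpow_one] at h1
    exact_mod_cast h1
  set dig : ℕ → ℤ := fun j => ((m / 2 ^ j % 2 : ℕ) : ℤ) with hdig
  have hdig0 : ∀ j, 0 ≤ dig j ∧ dig j ≤ 1 := by
    intro j
    have := Nat.mod_lt (m / 2 ^ j) (show 0 < 2 by norm_num)
    rw [hdig]
    simp only []
    omega
  have hmp : m < 2 ^ (n + 1) := by rw [pow_succ]; omega
  set J : Finset ℕ := (Finset.range (n + 1)).filter
    fun i => m / 2 ^ i % 2 ≠ m / 2 ^ (i + 1) % 2 with hJ
  have hsum : (m : ℤ) = -dig 0 + ∑ j ∈ J, (dig j - dig (j + 1)) * 2 ^ (j + 1) := by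
    have h1 := changes_eq m (n + 1)
    rw [Nat.div_eq_of_lt hmp] at h1
    have h2 : ∑ j ∈ Finset.range (n + 1), (dig j - dig (j + 1)) * 2 ^ (j + 1) =
        ∑ j ∈ J, (dig j - dig (j + 1)) * 2 ^ (j + 1) := by
      rw [hJ, Finset.sum_filter]
      refine Finset.sum_congr rfl fun j _ => ?_
      split_ifs with h3
      · rfl
      · push Not at h3
        have h4 : dig j = dig (j + 1) := by
          rw [hdig]
          simp only []
          exact_mod_cast h3
        rw [h4, sub_self, zero_mul]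
    rw [← h2, h1]
    simp [hdig]
  set c0 : ℕ → ℤ := fun j => if j = 0 then 0 else dig (j - 1) - dig j with hc0
  have hc09 : ∀ j, |c0 j| ≤ 1 := by
    intro j
    rw [hc0]
    simp only []
    split_ifs
    · norm_num
    · have h1 := hdig0 (j - 1)
      have h2 := hdig0 j
      rw [abs_le]
      constructor <;> linarith
  set J' : Finset ℕ := J.image (fun j => j + 1) with hJ'
  have hJ'p : ∀ j ∈ J', j ≤ n + 1 := by
    intro j hj
    rw [hJ', Finset.mem_image] at hj
    obtain ⟨i, hi, rfl⟩ := hj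
    rw [hJ, Finset.mem_filter, Finset.mem_range] at hi
    omega
  have hJ'c : J'.card ≤ r := by
    rw [hJ', Finset.card_image_of_injective _ (fun a b h => by omega)]
    exact hcon
  obtain ⟨c', e, g1, g2, g3⟩ := pack (n + 1) c0 hc09 J' hJ'p r hJ'c
  have hsum2 : (m : ℤ) = -dig 0 + ∑ i, c' i * 2 ^ (e i) := by
    rw [← g3]
    conv_lhs => rw [hsum]
    rw [hJ', Finset.sum_image (fun a _ b _ h => by omega)]
    congr 1
  set c : Fin (r + 1) → ℤ := Fin.cons (-dig 0) c' with hc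
  set e' : Fin (r + 1) → ℕ := Fin.cons 0 e with he'
  have hG : ∑ i, c i * (2 : ℤ) ^ (e' i) = m := by
    rw [hsum2, Fin.sum_univ_succ, hc, he']
    simp only [Fin.cons_zero, Fin.cons_succ, pow_zero, mul_one]
  have hc9 : ∀ i, |c i| ≤ 1 := by
    intro i
    rw [hc]
    induction i using Fin.cases with
    | zero =>
      simp only [Fin.cons_zero]
      have := hdig0 0
      rw [abs_le]
      constructor <;> linarith
    | succ i => simp only [Fin.cons_succ]; exact g1 i
  have he9 : ∀ i, e' i ≤ n + 1 := by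
    intro i
    rw [he']
    induction i using Fin.cases with
    | zero => simp
    | succ i => simp only [Fin.cons_succ]; exact g2 i
  set u : Fin (r + 1) → ℚ := fun i => ((2 ^ (e' i) : ℤ) : ℚ) with hu
  have hGq : (∑ i, (c i : ℚ) * u i).num = m := by
    have h1 : (∑ i, (c i : ℚ) * u i) = ((m : ℤ) : ℚ) := by
      rw [← hG, hu]
      push_cast
      rfl
    rw [h1, Rat.num_intCast]
  have key := h n (by omega) k hk hks0 (by
      intro l hl2 _ hd2
      rw [Finset.mem_singleton.1 hl2] at hd2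
      have h3 : 2 ∣ 2 ^ n := dvd_pow_self _ (by omega)
      have h4 : 2 ∣ k := (Nat.dvd_add_right h3).1 hd2
      exact (Nat.not_even_iff_odd.2 hk) (even_iff_two_dvd.2 h4))
    (fun l hl1 hl2 hl3 => hl l hl1 hl2 (by omega)) h4 c u
    (fun i => by
      have h1 : |(c i : ℝ)| ≤ 1 := by exact_mod_cast hc9 i
      exact h1.trans (Real.one_le_rpow h2n hη0.le))
    (fun i => by
      rw [hu]
      positivity)
    (fun i l hlp hd2 => by
      rw [hu] at hd2
      simp only [Rat.num_intCast, Rat.den_intCast, Nat.dvd_one] at hd2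
      rcases hd2 with h5 | h5
      · rw [Int.natAbs_pow] at h5
        have h6 := hlp.dvd_of_dvd_pow h5
        rw [Finset.mem_singleton]
        exact (Nat.prime_dvd_prime_iff_eq hlp Nat.prime_two).1 h6
      · exact absurd h5 hlp.one_lt.ne')
    (fun i => by
      have h5 : ((2 : ℝ) ^ n) ^ (2 : ℝ) = (2 : ℝ) ^ (2 * n) := by
        rw [show (2 : ℝ) = ((2 : ℕ) : ℝ) by norm_num, Real.rpow_natCast, ← pow_mul, mul_comm]
      rw [hu]
      simp only [Rat.num_intCast, Rat.den_intCast]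
      rw [h5]
      refine ⟨?_, ?_⟩
      · push_cast
        rw [abs_of_pos (by positivity)]
        exact pow_le_pow_right₀ (by norm_num) (by have := he9 i; omega)
      · exact_mod_cast one_le_pow₀ (by norm_num))
    (by
      rw [hGq]
      intro hdv
      have h3 := Nat.le_of_dvd hm0 (Int.natCast_dvd_natCast.1 hdv)
      omega)
    d hdM (by rw [hGq]; exact_mod_cast hdm)
  linarith

/-- the `n`-th prime is at most `n ^ 2` for large `n` -/
theorem nth_le : ∀ᶠ n : ℕ in atTop, Nat.nth Nat.Prime (n - 1) ≤ n ^ 2 := by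
  have h1 : ∀ᶠ n : ℕ in atTop, (n : ℝ) * (2 * Real.log n) + Real.log (n ^ 2 + 1) ≤
      (n : ℝ) ^ 2 * Real.log 2 := by
    have h2 : Tendsto (fun x : ℝ => Real.log x / x) atTop (𝓝 0) := by
      have := Real.isLittleO_log_id_atTop.tendsto_div_nhds_zero
      simpa using this
    have h3 : ∀ᶠ n : ℕ in atTop, Real.log n / n < 1 / 10 :=
      (h2.comp tendsto_natCast_atTop_atTop).eventually_lt_const (by norm_num)
    filter_upwards [h3, eventually_ge_atTop 1, eventually_ge_atTop 10] with n hn hn1 hn10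
    have hn0 : (0 : ℝ) < n := by exact_mod_cast hn1
    have hn10' : (10 : ℝ) ≤ n := by exact_mod_cast hn10
    rw [div_lt_iff₀ hn0] at hn
    have h4 : Real.log ((n : ℝ) ^ 2 + 1) ≤ 2 * Real.log n + Real.log 2 := by
      have h5 : (n : ℝ) ^ 2 + 1 ≤ (n : ℝ) ^ 2 * 2 := by nlinarith
      calc Real.log ((n : ℝ) ^ 2 + 1) ≤ Real.log ((n : ℝ) ^ 2 * 2) :=
            Real.log_le_log (by positivity) h5
        _ = 2 * Real.log n + Real.log 2 := by
            rw [Real.log_mul (by positivity) (by norm_num), Real.log_pow]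
            norm_num
    have h6 := Real.log_two_gt_d9
    have h7 := Real.log_two_lt_d9
    nlinarith
  filter_upwards [h1, eventually_ge_atTop 2] with n hn hn2
  have hψ := Chebyshev.psi_ge (n ^ 2)
  have hπ := Chebyshev.psi_le_primeCounting_mul_log (n ^ 2)
  have hlog : 0 < Real.log ((n ^ 2 : ℕ) : ℝ) := by
    apply Real.log_pos
    have : 1 < n ^ 2 := by nlinarith
    exact_mod_cast this
  have h3 : (n : ℝ) ≤ (Nat.primeCounting (n ^ 2) : ℝ) := by
    have h4 : (n : ℝ) * Real.log ((n ^ 2 : ℕ) : ℝ) ≤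
        (Nat.primeCounting (n ^ 2) : ℝ) * Real.log ((n ^ 2 : ℕ) : ℝ) := by
      refine le_trans ?_ hπ
      refine le_trans ?_ hψ
      push_cast
      rw [Real.log_pow]
      push_cast
      linarith
    exact le_of_mul_le_mul_right h4 hlog
  have h5 : n ≤ Nat.primeCounting (n ^ 2) := by exact_mod_cast h3
  have h6 : n - 1 < Nat.count Nat.Prime (n ^ 2 + 1) := by
    have : Nat.primeCounting (n ^ 2) = Nat.count Nat.Prime (n ^ 2 + 1) := rfl
    omega
  have h7 := Nat.nth_lt_of_lt_count h6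
  omega

/-- the `n`-th prime is negligible -/
theorem nth_small {η : ℝ} (hη : 0 < η) :
    ∀ᶠ n : ℕ in atTop, (Nat.nth Nat.Prime (n - 1) : ℝ) ≤ ((2 : ℝ) ^ n) ^ η := by
  have h2 : Tendsto (fun x : ℝ => Real.log x / x) atTop (𝓝 0) := by
    have := Real.isLittleO_log_id_atTop.tendsto_div_nhds_zero
    simpa using this
  have h3 : ∀ᶠ n : ℕ in atTop, Real.log n / n < η / 4 :=
    (h2.comp tendsto_natCast_atTop_atTop).eventually_lt_const (by positivity)
  filter_upwards [nth_le, h3, eventually_ge_atTop 1] with n h1 h3 hn1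
  have hn0 : (0 : ℝ) < n := by exact_mod_cast hn1
  rw [div_lt_iff₀ hn0] at h3
  have h4 : ((2 : ℝ) ^ n) ^ η = Real.exp (n * Real.log 2 * η) := by
    rw [Real.exp_mul, mul_comm (n : ℝ), Real.exp_mul, Real.exp_log (by norm_num),
      Real.rpow_natCast]
  have h5 : ((n ^ 2 : ℕ) : ℝ) = Real.exp (2 * Real.log n) := by
    push_cast
    rw [← Real.rpow_natCast, Real.rpow_def_of_pos hn0]
    push_cast
    ring_nf
  have h6 : (Nat.nth Nat.Prime (n - 1) : ℝ) ≤ ((n ^ 2 : ℕ) : ℝ) := by exact_mod_cast h1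
  rw [h4]
  refine h6.trans ?_
  rw [h5]
  apply Real.exp_le_exp.2
  have h7 := Real.log_two_gt_d9
  nlinarith [mul_pos hn0 hη]

end Pool.Agent.H556.PT
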